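import Mathlib

/-! MP_8815b4_co: t-intersecting k-multisets of multiplicity at most l (helper42 + helper89).
Text of the proof: `team-store get helper42_MS_proof.md`. -/

open Finset

namespace MS

/-- `t`-intersecting family of subsets of `{0, …, m-1}` -/
def TI (t m : ℕ) (F : Finset (Finset ℕ)) : Prop :=
  (∀ S ∈ F, S ⊆ range m) ∧ ∀ S ∈ F, ∀ T ∈ F, t ≤ #(S ∩ T)

/-- weight of a family: the weight of a set depends on its size only -/
noncomputable def wt (v : ℕ → ℝ) (F : Finset (Finset ℕ)) : ℝ := ∑ S ∈ F, v #S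

/-- the hypotheses on the weights on subsets of `{0, …, m-1}` -/
structure Hyp (t m : ℕ) (v : ℕ → ℝ) : Prop where
  nn : ∀ x, 0 ≤ v x
  H0 : ∀ x y z, 0 < v x → 0 < v y → x ≤ z → z ≤ y → 0 < v z
  K2 : ∀ a b, a ≠ b → a + b = m + t → t + 1 ≤ a → t + 1 ≤ b → 0 < v a → 0 < v b →
    v a * v b < v (a - 1) * v (b - 1)
  K0 : ∀ r, t = 1 → m = 1 + 2 * r → 1 ≤ r → 0 < v (r + 1) → v (r + 1) < v r
  K1 : ∀ r c j, 2 ≤ t → m = t + 2 * r → c + 1 = t + r → 1 ≤ j → j + 1 ≤ r → 0 < v (c + 1) →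
    v (c + 1) * (v (c - j) + v (c + j)) ≤ v c * (v (c - j + 1) + v (c + j + 1))
  K3 : ∀ r c j, 2 ≤ t → m = t + 2 * r → c + 1 = t + r → 1 ≤ j → j + 1 ≤ r → 0 < v (c + 1) →
    v (c + 1) * v (c + j) ≤ v c * v (c - j + 1)

/-- STEP (part B of the text) -/
def STEPStm : Prop := ∀ (t m : ℕ) (v : ℕ → ℝ), 1 ≤ t → t < m → Hyp t m v →
  ∀ F, TI t m F →
    (∃ F', TI t (m - 1) F' ∧ wt v F ≤ wt (fun s => v s + v (s + 1)) F') ∨
    (∃ r, m = t + 2 * r ∧ wt v F ≤ wt v ((range m).powerset.filter (fun S => t + r ≤ #S)))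

section
open Polynomial
/-- `x + x² + … + x^l` -/
noncomputable def P (l : ℕ) : ℕ[X] := ∑ i ∈ Icc 1 l, X ^ i

/-- the number of functions on `c + M` boxes with values at most `l`, positive on the first `c` boxes, of sum `k` -/
noncomputable def W (k l c M : ℕ) : ℕ := ((P l) ^ c * (1 + P l) ^ M).coeff k
end

/-- HYPW (part C of the text) -/
def HYPWStm : Prop := ∀ k l t m n : ℕ, 1 ≤ t → t < m → m ≤ n → t ≤ k → 2 ≤ l → 2 * k ≤ n + t →
  Hyp t m (fun c => (W k l c (n - m) : ℝ))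

/-- MAINW: STEP + HYPW + induction on m -/
def MAINWStm : Prop := ∀ k l t n : ℕ, 1 ≤ t → t ≤ k → 2 ≤ l → 2 * k ≤ n + t →
  ∀ G, TI t n G → ∃ r, t + 2 * r ≤ n ∧
    wt (fun c => (W k l c 0 : ℝ)) G ≤
      wt (fun c => (W k l c (n - (t + 2 * r)) : ℝ))
        ((range (t + 2 * r)).powerset.filter (fun S => t + r ≤ #S))

/-- the multisets as functions -/
def IsM (n l k : ℕ) (f : Fin n → ℕ) : Prop := (∀ i, f i ≤ l) ∧ ∑ i, f i = k

/-- support -/
def supp {n : ℕ} (f : Fin n → ℕ) : Finset (Fin n) := univ.filter (fun i => f i ≠ 0)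

/-- KERNEL (part A): the supports can be made t-intersecting -/
def KERNELStm : Prop := ∀ (n l k t : ℕ) (F : Finset (Fin n → ℕ)), 2 * k ≤ n + t →
  (∀ f ∈ F, IsM n l k f) → (∀ f ∈ F, ∀ g ∈ F, t ≤ ∑ i, min (f i) (g i)) →
  ∃ F' : Finset (Fin n → ℕ), #F' = #F ∧ (∀ f ∈ F', IsM n l k f) ∧
    ∀ f ∈ F', ∀ g ∈ F', t ≤ #(supp f ∩ supp g)

/-- COUNT: number of multisets whose support has a given trace on the first `m` points -/
def COUNTStm : Prop := ∀ (n l k m : ℕ), m ≤ n → ∀ S : Finset (Fin n), (∀ i ∈ S, (i : ℕ) < m) →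
  ∀ A : Finset (Fin n → ℕ),
    (∀ f, f ∈ A ↔ IsM n l k f ∧ (supp f).filter (fun i : Fin n => (i : ℕ) < m) = S) →
    #A = W k l #S (n - m)

end MS
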