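import Pool.Agent.Helper89.MS.Sheet
import Pool.Agent.Helper33.MS.Kernel
import Pool.Agent.Helper33.MS.B0
import Pool.Agent.Helper2.MS.Count
import Pool.Agent.Helper2.MS.B3
import Pool.Agent.Helper30.MS.MainW
import Pool.Agent.Helper30.MS.B10
import Pool.Agent.Helper43.MS.B
import Pool.Agent.Helper59.MS.LevB5
import Pool.Agent.Helper13.MS.Lay
import Pool.Agent.Helper67.MS.B7
import Pool.Agent.Helper99.MS.B9W
import Pool.Agent.Helper4.MS.UV
import Pool.Agent.Helper4.MS.Push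
import Pool.Agent.Helper76.MS.B8
import Pool.Agent.Helper89.MS.Hyp3

namespace MS

theorem kernel' : KERNELStm := kernel
theorem count' : COUNTStm := Pool.Agent.Helper2.MS.count

theorem step : STEPStm := by
  have hL : LEVStm := Pool.Agent.Helper59.MSP.LEV
  have hUV : UVStm := Pool.Agent.Helper4.MS.UV hL
  have hPUSH : PUSHStm := Pool.Agent.Helper4.MS.PUSH hL
  have h1 : B1Stm := Pool.Agent.Helper43.MS.b1
  have h2 : B2Stm := Pool.Agent.Helper43.MS.b2
  have h3 : B3Stm := Pool.Agent.Helper2.MS.B3 h1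
  have h4 : B4Stm := Pool.Agent.Helper43.MS.b4
  have h5 : B5Stm := Pool.Agent.Helper59.MSP.B5
  have h7 : B7Stm := b7 hPUSH H13.LAY hUV
  have h8 : B8Stm := H76.B8 hUV H13.LAY
  have h9 : B9Stm := H99.b9 hUV
  exact H13.ASM B0 h1 h2 h3 h4 h5 (Pool.Agent.Helper30.MS.b10 h7 h8 h9 hUV)

theorem mainw3 (k l t n : ℕ) (hk3 : 3 ≤ k) (ht : 1 ≤ t) (htk : t ≤ k) (hl : 2 ≤ l)
    (hk : 2 * k ≤ n + t) : ∀ G, TI t n G → ∃ r, t + 2 * r ≤ n ∧
      wt (fun c => (W k l c 0 : ℝ)) G ≤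
        wt (fun c => (W k l c (n - (t + 2 * r)) : ℝ))
          ((Finset.range (t + 2 * r)).powerset.filter (fun S => t + r ≤ S.card)) :=
  Pool.Agent.Helper30.MS.mainW_core step k l t n ht (by omega)
    (fun m h1 h2 => hypw3 k l t m n hk3 ht h1 h2 htk hl hk)

end MS
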