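import Pool.Agent.Helper89.MS.Defs

open Finset

namespace MS

/-- the columns `1..n`, the levels `1..l` -/
def M (n l : ℕ) : Finset (ℕ × ℕ) := Icc 1 n ×ˢ Icc 1 l

/-- `k`-multiset of `M(n,l)` -/
def IsMultiset (n l k : ℕ) (A : Finset (ℕ × ℕ)) : Prop :=
  A ⊆ M n l ∧ #A = k ∧ ∀ i j, (i, j) ∈ A → ∀ j', 1 ≤ j' → j' ≤ j → (i, j') ∈ A

/-- multiplicities -/
def dec (n l : ℕ) (A : Finset (ℕ × ℕ)) : Fin n → ℕ := fun i =>
  #((Icc 1 l).filter (fun j => ((i : ℕ) + 1, j) ∈ A))

/-- multiset of a function -/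
def enc (n : ℕ) (f : Fin n → ℕ) : Finset (ℕ × ℕ) :=
  (univ : Finset (Fin n)).biUnion (fun i => (Icc 1 (f i)).image (fun j => ((i : ℕ) + 1, j)))

lemma mem_enc {n : ℕ} (f : Fin n → ℕ) (p : ℕ × ℕ) :
    p ∈ enc n f ↔ ∃ i : Fin n, p.1 = (i : ℕ) + 1 ∧ 1 ≤ p.2 ∧ p.2 ≤ f i := by
  unfold enc
  simp only [mem_biUnion, mem_univ, true_and, mem_image, mem_Icc]
  constructor
  · rintro ⟨i, j, ⟨h1, h2⟩, rfl⟩
    exact ⟨i, rfl, h1, h2⟩
  · rintro ⟨i, h0, h1, h2⟩
    exact ⟨i, p.2, ⟨h1, h2⟩, by rw [← h0]⟩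

lemma mem_enc' {n : ℕ} (f : Fin n → ℕ) (i : Fin n) (j : ℕ) :
    ((i : ℕ) + 1, j) ∈ enc n f ↔ 1 ≤ j ∧ j ≤ f i := by
  rw [mem_enc]
  constructor
  · rintro ⟨i', h0, h1, h2⟩
    have : i = i' := Fin.ext (by simpa using h0)
    subst this
    exact ⟨h1, h2⟩
  · rintro ⟨h1, h2⟩
    exact ⟨i, rfl, h1, h2⟩

lemma card_enc {n : ℕ} (f : Fin n → ℕ) : #(enc n f) = ∑ i, f i := by
  unfold enc
  rw [card_biUnion]
  · refine sum_congr rfl fun i _ => ?_
    rw [card_image_of_injective _ (fun a b h => by simpa using h)]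
    simp
  · intro i _ j _ hij
    rw [Function.onFun, Finset.disjoint_left]
    intro p hp hq
    simp only [mem_image] at hp hq
    obtain ⟨a, _, rfl⟩ := hp
    obtain ⟨b, _, hb⟩ := hq
    apply hij
    have := (Prod.mk.inj hb).1
    exact Fin.ext (by omega)

lemma enc_inter {n : ℕ} (f g : Fin n → ℕ) :
    enc n f ∩ enc n g = enc n (fun i => min (f i) (g i)) := by
  ext p
  simp only [mem_inter, mem_enc]
  constructor
  · rintro ⟨⟨i, h0, h1, h2⟩, ⟨i', h0', _, h2'⟩⟩
    have : i = i' := Fin.ext (by omega)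
    subst this
    exact ⟨i, h0, h1, le_min h2 h2'⟩
  · rintro ⟨i, h0, h1, h2⟩
    exact ⟨⟨i, h0, h1, h2.trans (min_le_left _ _)⟩, ⟨i, h0, h1, h2.trans (min_le_right _ _)⟩⟩

lemma enc_inj {n : ℕ} {f g : Fin n → ℕ} (h : enc n f = enc n g) : f = g := by
  funext i
  rcases le_total (f i) (g i) with h1 | h1
  · rcases Nat.eq_zero_or_pos (g i) with h0 | h0
    · omega
    · have : ((i : ℕ) + 1, g i) ∈ enc n g := (mem_enc' g i _).2 ⟨h0, le_rfl⟩
      rw [← h, mem_enc'] at this
      omega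
  · rcases Nat.eq_zero_or_pos (f i) with h0 | h0
    · omega
    · have : ((i : ℕ) + 1, f i) ∈ enc n f := (mem_enc' f i _).2 ⟨h0, le_rfl⟩
      rw [h, mem_enc'] at this
      omega

lemma enc_isMultiset {n l k : ℕ} {f : Fin n → ℕ} (hf : IsM n l k f) :
    IsMultiset n l k (enc n f) := by
  refine ⟨?_, ?_, ?_⟩
  · intro p hp
    obtain ⟨i, h0, h1, h2⟩ := (mem_enc f p).1 hp
    have := i.2
    have := hf.1 i
    simp only [M, mem_product, mem_Icc]
    omega
  · rw [card_enc, hf.2]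
  · intro i j hij j' h1 h2
    obtain ⟨i', h0, h3, h4⟩ := (mem_enc f _).1 hij
    exact (mem_enc f _).2 ⟨i', h0, h1, le_trans h2 h4⟩

lemma enc_dec {n l k : ℕ} {A : Finset (ℕ × ℕ)} (hA : IsMultiset n l k A) :
    enc n (dec n l A) = A := by
  obtain ⟨h1, h2, h3⟩ := hA
  -- the levels of a column form an initial segment
  have key : ∀ (i : Fin n) (j : ℕ), 1 ≤ j → (j ≤ dec n l A i ↔ ((i : ℕ) + 1, j) ∈ A) := by
    intro i j hj
    constructor
    · intro h
      by_contra hn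
      have : (Icc 1 l).filter (fun j => ((i : ℕ) + 1, j) ∈ A) ⊆ Icc 1 (j - 1) := by
        intro x hx
        simp only [mem_filter, mem_Icc] at hx ⊢
        refine ⟨hx.1.1, ?_⟩
        by_contra hlt
        exact hn (h3 _ _ hx.2 j hj (by omega))
      have := card_le_card this
      simp only [Nat.card_Icc] at this
      unfold dec at h
      omega
    · intro h
      have hl : j ≤ l := by
        have := h1 h
        simp only [M, mem_product, mem_Icc] at this
        omega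
      have : Icc 1 j ⊆ (Icc 1 l).filter (fun j => ((i : ℕ) + 1, j) ∈ A) := by
        intro x hx
        simp only [mem_filter, mem_Icc] at hx ⊢
        exact ⟨⟨hx.1, hx.2.trans hl⟩, h3 _ _ h x hx.1 hx.2⟩
      have := card_le_card this
      simp only [Nat.card_Icc] at this
      unfold dec
      omega
  ext p
  rw [mem_enc]
  constructor
  · rintro ⟨i, h0, h4, h5⟩
    have := (key i p.2 h4).1 h5
    rw [← h0] at this
    exact this
  · intro hp
    have hM := h1 hp
    simp only [M, mem_product, mem_Icc] at hM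
    refine ⟨⟨p.1 - 1, by omega⟩, by simp; omega, hM.2.1, ?_⟩
    rw [key _ _ hM.2.1]
    have : ((⟨p.1 - 1, by omega⟩ : Fin n) : ℕ) + 1 = p.1 := by simp; omega
    rw [this]
    exact hp

lemma dec_isM {n l k : ℕ} {A : Finset (ℕ × ℕ)} (hA : IsMultiset n l k A) :
    IsM n l k (dec n l A) := by
  refine ⟨fun i => ?_, ?_⟩
  · unfold dec
    exact (card_filter_le _ _).trans (by simp)
  · rw [← card_enc, enc_dec hA, hA.2.1]

lemma dec_enc {n l k : ℕ} {f : Fin n → ℕ} (hf : IsM n l k f) : dec n l (enc n f) = f :=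
  enc_inj (enc_dec (enc_isMultiset hf))

/-- the support as a set of numbers `0..n-1` -/
def suppN {n : ℕ} (f : Fin n → ℕ) : Finset ℕ := (supp f).map Fin.valEmbedding

/-- trace on the first row of the first `q` columns -/
lemma card_trace {n l k q : ℕ} {f : Fin n → ℕ} (hf : IsM n l k f) :
    #(enc n f ∩ M q 1) = #((supp f).filter (fun i : Fin n => (i : ℕ) < q)) := by
  symm
  refine card_bij (fun (i : Fin n) _ => ((i : ℕ) + 1, 1)) ?_ ?_ ?_
  · intro i hi
    simp only [mem_filter, supp, mem_univ, true_and] at hi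
    rw [mem_inter, mem_enc']
    simp only [M, mem_product, mem_Icc]
    omega
  · intro i _ j _ h
    exact Fin.ext (by simpa using h)
  · intro p hp
    rw [mem_inter, mem_enc] at hp
    obtain ⟨⟨i, h0, h1, h2⟩, h3⟩ := hp
    simp only [M, mem_product, mem_Icc] at h3
    refine ⟨i, ?_, ?_⟩
    · simp only [mem_filter, supp, mem_univ, true_and]
      omega
    · ext
      · simpa using h0.symm
      · simp; omega

end MS
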