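import Pool.Agent.Helper89.MS.Bridge

open Finset

namespace MS

/-- `t`-intersecting family of `k`-multisets of `M(n,l)` -/
def Fam (n l k t : ℕ) (F : Finset (Finset (ℕ × ℕ))) : Prop :=
  (∀ A ∈ F, IsMultiset n l k A) ∧ ∀ A ∈ F, ∀ B ∈ F, t ≤ #(A ∩ B)

/-- the family `F_i`: all `k`-multisets `A` with `|A ∩ M(t+2i,1)| ≥ t+i` -/
noncomputable def FF (n l k t i : ℕ) : Finset (Finset (ℕ × ℕ)) :=
  open Classical in
  (M n l).powerset.filter (fun A => IsMultiset n l k A ∧ t + i ≤ #(A ∩ M (t + 2 * i) 1))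

lemma mem_FF {n l k t i : ℕ} {A : Finset (ℕ × ℕ)} :
    A ∈ FF n l k t i ↔ IsMultiset n l k A ∧ t + i ≤ #(A ∩ M (t + 2 * i) 1) := by
  classical
  unfold FF
  rw [mem_filter, mem_powerset]
  exact ⟨fun h => h.2, fun h => ⟨h.1.1, h⟩⟩

lemma FF_fam (n l k t i : ℕ) : Fam n l k t (FF n l k t i) := by
  refine ⟨fun A hA => (mem_FF.1 hA).1, fun A hA B hB => ?_⟩
  have h1 := (mem_FF.1 hA).2
  have h2 := (mem_FF.1 hB).2
  have h3 : #((A ∩ M (t + 2 * i) 1) ∪ (B ∩ M (t + 2 * i) 1)) ≤ t + 2 * i := by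
    refine (card_le_card (union_subset inter_subset_right inter_subset_right)).trans ?_
    simp [M]
  have h4 := card_union_add_card_inter (A ∩ M (t + 2 * i) 1) (B ∩ M (t + 2 * i) 1)
  have h5 : #((A ∩ M (t + 2 * i) 1) ∩ (B ∩ M (t + 2 * i) 1)) ≤ #(A ∩ B) := by
    refine card_le_card fun x hx => ?_
    simp only [mem_inter] at hx ⊢
    exact ⟨hx.1.1, hx.2.1⟩
  omega

lemma FF_empty {n l k t i : ℕ} (h : k < t + i) : FF n l k t i = ∅ := by
  refine eq_empty_of_forall_notMem fun A hA => ?_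
  obtain ⟨⟨_, h2, _⟩, h3⟩ := mem_FF.1 hA
  have := card_le_card (inter_subset_left : A ∩ M (t + 2 * i) 1 ⊆ A)
  omega

/-- the functions whose support has a trace of size at least `p` on the first `q` points -/
noncomputable def BB (n l k q p : ℕ) : Finset (Fin n → ℕ) :=
  open Classical in
  (Fintype.piFinset (fun _ : Fin n => range (l + 1))).filter
    (fun f => IsM n l k f ∧ p ≤ #((supp f).filter (fun i : Fin n => (i : ℕ) < q)))

lemma mem_BB {n l k q p : ℕ} {f : Fin n → ℕ} :
    f ∈ BB n l k q p ↔ IsM n l k f ∧ p ≤ #((supp f).filter (fun i : Fin n => (i : ℕ) < q)) := by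
  classical
  unfold BB
  rw [mem_filter, Fintype.mem_piFinset]
  refine ⟨fun h => h.2, fun h => ⟨fun i => ?_, h⟩⟩
  have := h.1.1 i
  simp; omega

lemma card_FF (n l k t i : ℕ) : #(FF n l k t i) = #(BB n l k (t + 2 * i) (t + i)) := by
  refine card_bij (fun A _ => dec n l A) ?_ ?_ ?_
  · intro A hA
    obtain ⟨h1, h2⟩ := mem_FF.1 hA
    rw [mem_BB]
    refine ⟨dec_isM h1, ?_⟩
    rw [← card_trace (dec_isM h1), enc_dec h1]
    exact h2
  · intro A hA B hB h
    rw [← enc_dec (mem_FF.1 hA).1, ← enc_dec (mem_FF.1 hB).1, h]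
  · intro f hf
    obtain ⟨h1, h2⟩ := mem_BB.1 hf
    refine ⟨enc n f, mem_FF.2 ⟨enc_isMultiset h1, ?_⟩, dec_enc h1⟩
    rw [card_trace h1]
    exact h2

/-- a set of numbers as a set of `Fin n` -/
def lift (n : ℕ) (S : Finset ℕ) : Finset (Fin n) := univ.filter (fun i : Fin n => (i : ℕ) ∈ S)

lemma lift_map {n : ℕ} {S : Finset ℕ} (h : S ⊆ range n) : (lift n S).map Fin.valEmbedding = S := by
  ext x
  simp only [lift, mem_map, mem_filter, mem_univ, true_and, Fin.valEmbedding_apply]
  constructor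
  · rintro ⟨i, hi, rfl⟩
    exact hi
  · intro hx
    exact ⟨⟨x, mem_range.1 (h hx)⟩, hx, rfl⟩

lemma card_lift {n : ℕ} {S : Finset ℕ} (h : S ⊆ range n) : #(lift n S) = #S := by
  conv_rhs => rw [← lift_map h]
  rw [card_map]

lemma card_BB (hC : COUNTStm) (n l k q p : ℕ) (hq : q ≤ n) :
    #(BB n l k q p) = ∑ S ∈ (range q).powerset.filter (fun S => p ≤ #S), W k l #S (n - q) := by
  classical
  rw [card_eq_sum_card_fiberwise
    (f := fun f : Fin n → ℕ => ((supp f).filter (fun i : Fin n => (i : ℕ) < q)).map Fin.valEmbedding)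
    (t := (range q).powerset.filter (fun S => p ≤ #S))]
  · refine sum_congr rfl fun S hS => ?_
    simp only [mem_filter, mem_powerset] at hS
    have hSn : S ⊆ range n := hS.1.trans (range_subset_range.2 hq)
    rw [← card_lift hSn]
    refine hC n l k q hq (lift n S) ?_ _ ?_
    · intro i hi
      simp only [lift, mem_filter, mem_univ, true_and] at hi
      exact mem_range.1 (hS.1 hi)
    · intro f
      rw [mem_filter, mem_BB]
      constructor
      · rintro ⟨⟨h1, h2⟩, h3⟩
        refine ⟨h1, ?_⟩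
        apply map_injective Fin.valEmbedding
        rw [h3, lift_map hSn]
      · rintro ⟨h1, h2⟩
        refine ⟨⟨h1, ?_⟩, ?_⟩
        · rw [h2, card_lift hSn]
          exact hS.2
        · rw [h2, lift_map hSn]
  · intro f hf
    simp only [coe_filter, Set.mem_ofPred_eq, mem_powerset]
    refine ⟨?_, ?_⟩
    · intro x hx
      simp only [mem_map, mem_filter] at hx
      obtain ⟨i, ⟨_, hi⟩, rfl⟩ := hx
      exact mem_range.2 hi
    · rw [card_map]
      exact (mem_BB.1 (mem_coe.1 hf)).2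

/-- the size of `F_i` -/
lemma card_FF' (hC : COUNTStm) (n l k t i : ℕ) (h : t + 2 * i ≤ n) :
    #(FF n l k t i) = ∑ S ∈ (range (t + 2 * i)).powerset.filter (fun S => t + i ≤ #S),
      W k l #S (n - (t + 2 * i)) := by
  rw [card_FF, card_BB hC _ _ _ _ _ h]

lemma sum_level (q p : ℕ) (g : ℕ → ℕ) :
    ∑ S ∈ (range q).powerset.filter (fun S => p ≤ #S), g #S = ∑ s ∈ Icc p q, q.choose s * g s := by
  rw [← sum_fiberwise_of_maps_to (s := (range q).powerset.filter (fun S => p ≤ #S))
    (t := Icc p q) (g := fun S => #S)]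
  · refine sum_congr rfl fun s hs => ?_
    rw [mem_Icc] at hs
    rw [sum_congr rfl (g := fun _ => g s)]
    · rw [sum_const, smul_eq_mul]
      congr 1
      rw [← card_range q, ← card_powersetCard]
      · congr 1
        ext S
        simp only [mem_filter, mem_powerset, mem_powersetCard, card_range]
        constructor
        · rintro ⟨⟨h1, _⟩, h3⟩
          exact ⟨h1, h3⟩
        · rintro ⟨h1, h3⟩
          exact ⟨⟨h1, by omega⟩, h3⟩
    · intro S hS
      rw [(mem_filter.1 hS).2]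
  · intro S hS
    simp only [mem_filter, mem_powerset] at hS
    rw [mem_Icc]
    refine ⟨hS.2, ?_⟩
    have := card_le_card hS.1
    rwa [card_range] at this

/-- upper bound -/
theorem upper (hK : KERNELStm) (hC : COUNTStm) (n l k t : ℕ)
    (hM : ∀ G, TI t n G → ∃ r, t + 2 * r ≤ n ∧
      wt (fun c => (W k l c 0 : ℝ)) G ≤
        wt (fun c => (W k l c (n - (t + 2 * r)) : ℝ))
          ((range (t + 2 * r)).powerset.filter (fun S => t + r ≤ #S)))
    (hn : 2 * k ≤ n + t) (F : Finset (Finset (ℕ × ℕ)))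
    (hF : Fam n l k t F) : ∃ r, t + 2 * r ≤ n ∧ #F ≤ #(FF n l k t r) := by
  classical
  -- functions
  have inj : Set.InjOn (dec n l) (F : Set (Finset (ℕ × ℕ))) := by
    intro A hA B hB h
    rw [← enc_dec (hF.1 A hA), ← enc_dec (hF.1 B hB), h]
  obtain ⟨F', h1, h2, h3⟩ := hK n l k t (F.image (dec n l)) hn (by
      intro f hf
      obtain ⟨A, hA, rfl⟩ := mem_image.1 hf
      exact dec_isM (hF.1 A hA)) (by
      intro f hf g hg
      obtain ⟨A, hA, rfl⟩ := mem_image.1 hf
      obtain ⟨B, hB, rfl⟩ := mem_image.1 hg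
      have := hF.2 A hA B hB
      rw [← enc_dec (hF.1 A hA), ← enc_dec (hF.1 B hB), enc_inter, card_enc] at this
      exact this)
  rw [card_image_of_injOn inj] at h1
  obtain ⟨r, hr, hw⟩ := hM (F'.image suppN) (by
    refine ⟨?_, ?_⟩
    · intro S hS
      obtain ⟨f, _, rfl⟩ := mem_image.1 hS
      intro x hx
      simp only [suppN, mem_map] at hx
      obtain ⟨i, _, rfl⟩ := hx
      exact mem_range.2 i.2
    · intro S hS T hT
      obtain ⟨f, hf, rfl⟩ := mem_image.1 hS
      obtain ⟨g, hg, rfl⟩ := mem_image.1 hT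
      unfold suppN
      rw [← map_inter, card_map]
      exact h3 f hf g hg)
  refine ⟨r, hr, ?_⟩
  -- the number of multisets with support in the family
  have h4 : #F' ≤ ∑ S ∈ F'.image suppN, W k l #S 0 := by
    rw [card_eq_sum_card_image suppN F']
    refine sum_le_sum fun S hS => ?_
    obtain ⟨g, hg, rfl⟩ := mem_image.1 hS
    have hc : #((BB n l k n 0).filter (fun f => supp f = supp g)) = W k l #(supp g) (n - n) := by
      refine hC n l k n le_rfl (supp g) (fun i _ => i.2) _ ?_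
      intro f
      rw [mem_filter, mem_BB]
      have : (supp f).filter (fun i : Fin n => (i : ℕ) < n) = supp f :=
        filter_true_of_mem fun i _ => i.2
      rw [this]
      constructor
      · rintro ⟨⟨h1, _⟩, h3⟩
        exact ⟨h1, h3⟩
      · rintro ⟨h1, h3⟩
        exact ⟨⟨h1, Nat.zero_le _⟩, h3⟩
    have hs : #(suppN g) = #(supp g) := card_map _
    rw [hs]
    rw [Nat.sub_self] at hc
    rw [← hc]
    refine card_le_card fun f hf => ?_
    rw [mem_filter] at hf ⊢
    refine ⟨mem_BB.2 ⟨h2 f hf.1, Nat.zero_le _⟩, ?_⟩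
    exact map_injective _ hf.2
  have h5 : (#F : ℝ) ≤ (#(FF n l k t r) : ℝ) := by
    rw [card_FF' hC n l k t r hr, ← h1]
    calc (#F' : ℝ) ≤ ((∑ S ∈ F'.image suppN, W k l #S 0 : ℕ) : ℝ) := by exact_mod_cast h4
      _ = wt (fun c => (W k l c 0 : ℝ)) (F'.image suppN) := by
          unfold wt; push_cast; rfl
      _ ≤ _ := hw
      _ = _ := by unfold wt; push_cast; rfl
  exact_mod_cast h5

end MS
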