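import Pool.Agent.Helper89.MS.Defs

/-! Statements of the packages inside STEP (MP_8815b4_co).  Numbers B0 … B10 as in the text
`team-store get helper42_MS_proof.md`.  Prove `theorem X : XStm` in your own file. -/

open Finset

namespace MS

/-- output of B0 -/
structure Good (t m : ℕ) (v : ℕ → ℝ) (F : Finset (Finset ℕ)) : Prop where
  ti : TI t m F
  mx : ∀ G, TI t m G → wt v G ≤ wt v F
  lc : ∀ S ∈ F, ∀ i j, i < j → j ∈ S → i ∉ S → insert i (S.erase j) ∈ F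
  up : ∀ S ∈ F, ∀ T, S ⊆ T → T ⊆ range m → T ∈ F
  pos : ∀ S ∈ F, ∃ A ∈ F, A ⊆ S ∧ 0 < v #A

/-- B0 -/
def B0Stm : Prop := ∀ (t m : ℕ) (v : ℕ → ℝ), (∀ x, 0 ≤ v x) → ∀ F, TI t m F →
  ∃ F', Good t m v F' ∧ wt v F ≤ wt v F'

/-- the sets of `F` which need the top element `m - 1` -/
def NN (m : ℕ) (F : Finset (Finset ℕ)) : Finset (Finset ℕ) :=
  F.filter (fun S => m - 1 ∈ S ∧ S.erase (m - 1) ∉ F)

/-- B1 -/
def B1Stm : Prop := ∀ (t m : ℕ) (v : ℕ → ℝ) (F : Finset (Finset ℕ)), 1 ≤ t → t < m →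
  Good t m v F → (∀ S ∈ NN m F, 0 < v #S ∧ t + 1 ≤ #S) ∧
    ∀ S ∈ NN m F, ∀ C ∈ F, m - 1 ∈ C → #(S ∩ C) = t → #S + #C = m + t ∧ C ∈ NN m F

/-- B2 (may use B1) -/
def B2Stm : Prop := ∀ (t m : ℕ) (v : ℕ → ℝ) (F : Finset (Finset ℕ)), 1 ≤ t → t < m →
  Hyp t m v → Good t m v F → ∀ S ∈ NN m F, 2 * #S ≠ m + t → v (#S - 1) = 0

/-- B3 (may use B1) -/
def B3Stm : Prop := ∀ (t m : ℕ) (v : ℕ → ℝ) (F : Finset (Finset ℕ)), 1 ≤ t → t < m →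
  Hyp t m v → Good t m v F → ∀ S ∈ NN m F, 2 * #S = m + t →
    ∃ r c : ℕ, m = t + 2 * r ∧ 1 ≤ r ∧ 2 ≤ t ∧ c + 1 = t + r ∧ #S = c + 1 ∧
      (r : ℝ) * v c ≤ (c : ℝ) * v (c + 1)

/-- B4 (may use B1, B2) -/
def B4Stm : Prop := ∀ (t m : ℕ) (v : ℕ → ℝ) (F : Finset (Finset ℕ)), 1 ≤ t → t < m →
  Hyp t m v → Good t m v F → (∀ S ∈ NN m F, 2 * #S ≠ m + t) →
    ∃ F', TI t (m - 1) F' ∧ wt v F ≤ wt (fun s => v s + v (s + 1)) F'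

/-- `F` is closed under exchanges inside `{0, …, L-1}` -/
def Sym (L : ℕ) (F : Finset (Finset ℕ)) : Prop :=
  ∀ S ∈ F, ∀ i j, i < L → j < L → i ∈ S → j ∉ S → insert j (S.erase i) ∈ F

/-- LEV -/
def LEVStm : Prop := ∀ (L : ℕ) (F : Finset (Finset ℕ)), Sym L F → ∀ S ∈ F, ∀ A, A ⊆ range L →
  #A = #(S ∩ range L) → A ∪ (S \ range L) ∈ F

/-- B5 (may use LEV) -/
def B5Stm : Prop := ∀ (t m r : ℕ) (v : ℕ → ℝ) (F : Finset (Finset ℕ)), 1 ≤ t →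
  (∀ x, 0 ≤ v x) → Good t m v F → Sym m F → m = t + 2 * r →
    wt v F ≤ wt v ((range m).powerset.filter (fun S => t + r ≤ #S))

/-- `U_a`: the `y` in `(L, m)` with `A ∪ y ∈ F` for some (all) `a`-subsets `A` of `{0..L-1}` -/
noncomputable def Ulev (L m : ℕ) (F : Finset (Finset ℕ)) (a : ℕ) : Finset (Finset ℕ) :=
  open Classical in
  (Ico (L + 1) m).powerset.filter (fun y => ∃ A, A ⊆ range L ∧ #A = a ∧ A ∪ y ∈ F)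

/-- `V_a`: the `y` in `(L, m)` with `A ∪ {L} ∪ y ∈ F` for some (all) `(a-1)`-subsets `A` -/
noncomputable def Vlev (L m : ℕ) (F : Finset (Finset ℕ)) (a : ℕ) : Finset (Finset ℕ) :=
  open Classical in
  (Ico (L + 1) m).powerset.filter (fun y => ∃ A, A ⊆ range L ∧ #A + 1 = a ∧ insert L (A ∪ y) ∈ F)

/-- UV: first facts (may use LEV); (6) is B6 -/
def UVStm : Prop := ∀ (t m L : ℕ) (v : ℕ → ℝ) (F : Finset (Finset ℕ)),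
  Good t m v F → L < m → Sym L F →
  (∀ a, ∀ y ∈ Ulev L m F a, ∀ A, A ⊆ range L → #A = a → A ∪ y ∈ F) ∧
  (∀ a, ∀ y ∈ Vlev L m F a, ∀ A, A ⊆ range L → #A + 1 = a → insert L (A ∪ y) ∈ F) ∧
  (∀ a, a ≤ L → Vlev L m F a ⊆ Ulev L m F a) ∧
  (∀ a, ∀ y ∈ Ulev L m F a, ∀ y', y ⊆ y' → y' ⊆ Ico (L + 1) m → y' ∈ Ulev L m F a) ∧
  (∀ a, ∀ y ∈ Vlev L m F a, ∀ y', y ⊆ y' → y' ⊆ Ico (L + 1) m → y' ∈ Vlev L m F a) ∧
  (¬ Sym (L + 1) F → ∃ a, 1 ≤ a ∧ a ≤ L ∧ ∃ y ∈ Ulev L m F a, y ∉ Vlev L m F a) ∧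
  (∀ a, 1 ≤ a → ∀ y ∈ Ulev L m F a, y ∉ Vlev L m F a →
    ∃ y' ∈ Ulev L m F a, y' ∉ Vlev L m F a ∧ 0 < v (a + #y'))

/-- weight of a family of traces at level `a` -/
noncomputable def wz (v : ℕ → ℝ) (a : ℕ) (Z : Finset (Finset ℕ)) : ℝ := ∑ z ∈ Z, v (a + #z)

/-- all sets `B ∪ z` with `B` an `a`-subset of `{0..n0-1}` and `z ∈ Z` -/
def lay (n0 a : ℕ) (Z : Finset (Finset ℕ)) : Finset (Finset ℕ) :=
  ((range n0).powersetCard a ×ˢ Z).image (fun p => p.1 ∪ p.2)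

/-- LAY -/
def LAYStm : Prop := ∀ (n0 a : ℕ) (v : ℕ → ℝ) (Z : Finset (Finset ℕ)),
  (∀ z ∈ Z, ∀ x ∈ z, n0 ≤ x) → wt v (lay n0 a Z) = (n0.choose a : ℝ) * wz v a Z

/-- PUSH (first half of B7; may use UV, LEV): the pushed family is `t`-intersecting -/
def PUSHStm : Prop := ∀ (t m L a b : ℕ) (v : ℕ → ℝ) (F : Finset (Finset ℕ)), 1 ≤ t →
  Good t m v F → L < m → Sym L F → 1 ≤ a → a ≠ b → a + b = L + t →
  TI t m ((F \ lay L b (Ulev L m F b \ Vlev L m F b)) ∪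
    lay L (a - 1) ((Ulev L m F a \ Vlev L m F a).image (insert L)))

/-- B7 (may use PUSH, LAY, UV) -/
def B7Stm : Prop := ∀ (t m L a : ℕ) (v : ℕ → ℝ) (F : Finset (Finset ℕ)), 2 ≤ t →
  (∀ x, 0 ≤ v x) → Good t m v F → L < m → Sym L F → 1 ≤ a →
  (∃ y ∈ Ulev L m F a, y ∉ Vlev L m F a) → 2 * a = L + t

/-- `Y1`: `z ∈ U` with complement in `U` -/
noncomputable def Y1 (L m : ℕ) (F : Finset (Finset ℕ)) (a : ℕ) : Finset (Finset ℕ) :=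
  (Ulev L m F a).filter (fun z => Ico (L + 1) m \ z ∈ Ulev L m F a)
/-- `UU = U ∩ U*` -/
noncomputable def UU (L m : ℕ) (F : Finset (Finset ℕ)) (a : ℕ) : Finset (Finset ℕ) :=
  (Ulev L m F a).filter (fun z => Ico (L + 1) m \ z ∉ Ulev L m F a)
/-- `ZZ`: members of `Y1` containing the top element -/
noncomputable def ZZ (L m : ℕ) (F : Finset (Finset ℕ)) (a : ℕ) : Finset (Finset ℕ) :=
  (Y1 L m F a).filter (fun z => m - 1 ∈ z)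

/-- B8 (J) (may use UV, LAY, LEV).  Second half: `V ⊆ UU`. -/
def B8Stm : Prop := ∀ (t m L a : ℕ) (v : ℕ → ℝ) (F : Finset (Finset ℕ)), 1 ≤ t →
  (∀ x, 0 ≤ v x) → Good t m v F → L < m → Sym L F → 1 ≤ a → a ≤ L → 2 * a = L + t →
  (∀ b, 1 ≤ b → b ≠ a → ∀ y ∈ Ulev L m F b, y ∈ Vlev L m F b) →
  Vlev L m F a ⊆ UU L m F a ∧
  (L.choose (a - 1) : ℝ) * (wz v a (UU L m F a) - wz v a (Vlev L m F a)) +
    ((L + 1).choose a : ℝ) * wz v a (ZZ L m F a) ≤ (L.choose a : ℝ) * wz v a (Y1 L m F a)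

/-- B9 (Q) (may use UV) -/
def B9Stm : Prop := ∀ (t m r s L a c : ℕ) (v : ℕ → ℝ) (F : Finset (Finset ℕ)), 2 ≤ t →
  Hyp t m v → Good t m v F → Sym L F → m = t + 2 * r → L = t + 2 * s → s < r →
  a = t + s → c + 1 = t + r → 0 < v (c + 1) →
  (∀ S ∈ NN m F, #S = c + 1 ∨ (v (#S - 1) = 0 ∧ 0 < v #S)) →
  v (c + 1) * wz v a (Y1 L m F a \ ZZ L m F a) ≤ v c * wz v a (ZZ L m F a)

/-- B10 (may use B7, B8, B9, UV): full symmetry -/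
def B10Stm : Prop := ∀ (t m r c : ℕ) (v : ℕ → ℝ) (F : Finset (Finset ℕ)), 2 ≤ t →
  Hyp t m v → Good t m v F → m = t + 2 * r → 1 ≤ r → c + 1 = t + r → 0 < v (c + 1) →
  (r : ℝ) * v c ≤ (c : ℝ) * v (c + 1) →
  (∀ S ∈ NN m F, #S = c + 1 ∨ (v (#S - 1) = 0 ∧ 0 < v #S)) →
  (∃ S ∈ NN m F, #S = c + 1) → Sym m F

/-- ASM: STEP from the packages -/
def ASMStm : Prop := B0Stm → B1Stm → B2Stm → B3Stm → B4Stm → B5Stm → B10Stm → STEPStm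

end MS
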